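import Pool.Agent.H30.AW.Hom2

/-!
# Row PR2: the main step
-/

set_option autoImplicit false

namespace Pool.Agent.H30.AW

open MvPolynomial SC Pool.Agent.H27.LV Pool.Agent.H30.AV

/-- the numerical hypothesis implies the one of curves with one tangent line -/
lemma num_bz {m r q : ℕ} (hm : 2 ≤ m) (hr : 1 ≤ r)
    (hq : 2 * m ^ 2 * ((2 * r - 1) * (2 * r - 2) + 1) ≤ (m - 1) ^ 2 * (q - 2 * r)) :
    2 * r ≤ q ∧ 2 * r * m < (m - 1) * q := by
  obtain ⟨m, rfl⟩ : ∃ m', m = m' + 1 := ⟨m - 1, by omega⟩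
  obtain ⟨r, rfl⟩ : ∃ r', r = r' + 1 := ⟨r - 1, by omega⟩
  have h1 : 2 * (r + 1) - 1 = 2 * r + 1 := by omega
  have h2 : 2 * (r + 1) - 2 = 2 * r := by omega
  rw [h1, h2, Nat.add_sub_cancel] at hq
  rw [Nat.add_sub_cancel]
  have hle : 2 * (r + 1) ≤ q := by
    by_contra hcon
    have h3 : q - 2 * (r + 1) = 0 := by omega
    rw [h3, mul_zero] at hq
    have : 0 < 2 * (m + 1) ^ 2 * ((2 * r + 1) * (2 * r) + 1) := by positivity
    omega
  refine ⟨hle, ?_⟩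
  obtain ⟨p, rfl⟩ : ∃ p, q = 2 * (r + 1) + p := ⟨q - 2 * (r + 1), by omega⟩
  rw [Nat.add_sub_cancel_left] at hq
  have hm1 : 1 ≤ m := by omega
  -- m * (m * p) ≥ 2 (m + 1)^2 (r + 1)
  have h4 : 2 * (m + 1) ^ 2 * (r + 1) ≤ m * (m * p) := by
    have h5 : r + 1 ≤ (2 * r + 1) * (2 * r) + 1 := by nlinarith
    calc 2 * (m + 1) ^ 2 * (r + 1) ≤ 2 * (m + 1) ^ 2 * ((2 * r + 1) * (2 * r) + 1) :=
          Nat.mul_le_mul_left _ h5
      _ ≤ m ^ 2 * p := hq
      _ = m * (m * p) := by ring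
  have h6 : 2 * (m + 1) * (r + 1) < m * p := by
    by_contra hcon
    push Not at hcon
    have h7 : m * (m * p) ≤ m * (2 * (m + 1) * (r + 1)) := Nat.mul_le_mul_left _ hcon
    nlinarith
  nlinarith

theorem pf_PR2 (hPX2 : T_PX2) (hGE2 : T_GE2) (hGP2 : T_GP2) (hGPV : T_GPV) (hCU2 : T_CU2)
    (hBZ2 : T_BZ2) : T_PR2 := by
  intro k _ _ _ m n r q Q hm hr hdim hq P hP hPh halt htr IH
  classical
  obtain ⟨hqr, hnum0⟩ := num_bz hm hr hq
  obtain ⟨t, ht⟩ := Cardinal.lt_aleph0.1 (htr.trans_lt (Cardinal.natCast_lt_aleph0))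
  have ht2 : t ≤ 2 * r := by
    rw [ht] at htr
    exact_mod_cast htr
  by_cases ht1 : t ≤ 1
  · refine hBZ2 k m n r q Q hm hr hdim hnum0 P hP hPh ?_
    rw [ht]
    exact_mod_cast ht1
  push Not at ht1
  obtain ⟨β, rfl⟩ : ∃ β, t = β + 2 := ⟨t - 2, by omega⟩
  obtain ⟨q0, rfl⟩ : ∃ q0, q = q0 + 2 * r := ⟨q - 2 * r, by omega⟩
  rw [Nat.add_sub_cancel] at hq
  obtain ⟨N, w, c, G, g, hN, hwr, hnum, hG, hg, hnot, hid⟩ :=
    hPX2 k m n r q0 β P hm hr ht2 hq hP hPh halt ht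
  obtain ⟨Ψ, hΨ0, hΨ⟩ := hGP2 k n q0 β P hP hPh halt ht.le
  choose! e h hew hh hinp using hid
  obtain ⟨Θ, hΘ⟩ : ∃ Θ, Θ = (G * ∏ I, g I) * MvPolynomial.map C Ψ := ⟨_, rfl⟩
  have hnot' : ¬ InC P Θ := by
    rw [hΘ]
    exact not_inC_mul hP hnot (not_inC_map_C hP hΨ0)
  obtain ⟨m0, hm0⟩ := not_forall.1 hnot'
  obtain ⟨θ, hθ⟩ : ∃ θ, θ = coeff m0 Θ := ⟨_, rfl⟩
  rw [← hθ] at hm0
  have hprod : HomC (N + ∑ I, c I + 0) Θ := by
    rw [hΘ]
    exact (hG.mul (HomC.prod Finset.univ c g hg)).mul (HomC.map_C Ψ)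
  have hθh : θ.IsHomogeneous (N + ∑ I, c I + 0) := by
    rw [hθ]
    exact hprod m0
  -- the larger ideal
  obtain ⟨Δ1, B1, hΔ1, hB1, hbd1⟩ := IH (P ⊔ Ideal.span {θ})
    (lt_of_le_of_ne le_sup_left fun h1 => hm0 (by
      rw [h1]
      exact Ideal.mem_sup_right (Ideal.mem_span_singleton_self _)))
    (hPh.sup (isHom_span fun f hf => by
      rw [Set.mem_singleton_iff] at hf
      rw [hf]
      exact ⟨_, hθh⟩))
  obtain ⟨Δ2, hΔ2, hgen⟩ := hGE2 k n (q0 + 2 * r) q0 (2 * r) P Θ hP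
    (by rw [ht]; exact_mod_cast ht2) le_rfl
  obtain ⟨Δ3, hΔ3, hgpv⟩ := hGPV k n r (q0 + 2 * r) Q hdim
  obtain ⟨B2, hB2⟩ : ∃ B2, B2 = m * (N + ∑ I, c I) := ⟨_, rfl⟩
  refine ⟨Δ1 * Δ2 * Δ3, B1 + B2, mul_ne_zero (mul_ne_zero hΔ1 hΔ2) hΔ3, by omega, ?_⟩
  intro a ha μ hμ K _ _ _ htrK S y x D hD hQy hreg hnc hx0 hxe hV
  rw [map_mul, map_mul, mul_ne_zero_iff, mul_ne_zero_iff] at ha
  obtain ⟨⟨ha1, ha2⟩, ha3⟩ := ha
  have hdeg0 : (0 : ℤ) ≤ deg k y := by positivity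
  by_cases hθy : aeval (lift2 y D) θ = 0
  · have h1 : (deg k y : ℤ) ≤ B1 * (canDeg D + S.card) := by
      refine hbd1 a ha1 μ hμ K htrK S y x D hD hQy hreg hnc hx0 hxe ?_
      intro f hf
      obtain ⟨f1, hf1, f2, hf2, rfl⟩ := Submodule.mem_sup.1 hf
      obtain ⟨f3, rfl⟩ := Ideal.mem_span_singleton'.1 hf2
      rw [map_add, map_mul, hV f1 hf1, hθy, mul_zero, add_zero]
    have hχ : 0 ≤ canDeg D + S.card := by
      by_contra hcon
      push Not at hcon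
      have : (1 : ℤ) ≤ B1 := by exact_mod_cast hB1
      nlinarith
    push_cast
    have : (0 : ℤ) ≤ B2 * (canDeg D + S.card) := by positivity
    linarith
  · obtain ⟨I0, b, hI0, hne⟩ := hgen a ha2 K (lift2 y D) hV ⟨m0, by rw [← hθ]; exact hθy⟩
    obtain ⟨a', ha'⟩ : ∃ a' : Fin q0 → Fin (n + 1) → k, a' = fun i => a (I0 i) := ⟨_, rfl⟩
    rw [← ha', hΘ, ← spwH_apply, map_mul, spwH_apply _ _ (MvPolynomial.map C Ψ), spw_map_C,
      map_mul, map_mul, map_prod, mul_ne_zero_iff] at hne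
    obtain ⟨hne1, hne2⟩ := hne
    have hΨab : eval (avw a' b) Ψ ≠ 0 := by
      intro h0
      rw [h0, map_zero, map_zero] at hne2
      exact hne2 rfl
    have hell : ∀ i, ell (a i) (xx y) ≠ 0 := by
      intro i
      rw [← hxe i]
      exact pow_ne_zero _ (hx0 i)
    have hai : ∀ i, a' i = a (I0 i) := fun i => by rw [ha']
    have hid' : ∀ I : Finset (Fin q0), 2 * I.card ≤ β + 1 →
        aeval (lift2 y D) (spw a' b (g I) * spw a' b G) = ∑ J : Fin q0 → Fin (w + 1),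
        (∏ i ∈ I, bil (evk K (b i 0)) (lift2 y D) (evk K (a' i)) ^ (J i : ℕ) *
          bil (evk K (b i 1)) (lift2 y D) (evk K (a' i)) ^ (w - (J i : ℕ))) *
          aeval (lift2 y D) (spw a' b (h I J)) := by
      intro I hI
      have h1 := hV _ (spw_mem a' b (hinp I hI))
      rw [← spwH_apply, map_sub, map_sub, map_sum, map_sum, sub_eq_zero] at h1
      rw [← spwH_apply, ← spwH_apply, ← map_mul, h1]
      refine Finset.sum_congr rfl fun J _ => ?_
      simp only [map_mul, map_prod, map_pow, spwH_apply, spw_TT]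
    have hhh : ∀ (I : Finset (Fin q0)) (J : Fin q0 → Fin (w + 1)), 2 * I.card ≤ β + 1 →
        (spw a' b (h I J)).IsHomogeneous (e I) := fun I J hI => spw_hom a' b (hh I hI J)
    have hcur := hCU2 k K htrK m n q0 r β N w c e a' b (fun i => μ (I0 i)) S y
      (fun i => x (I0 i)) D (spw a' b G) (fun I => spw a' b (g I))
      (fun I J => if 2 * I.card ≤ β + 1 then spw a' b (h I J) else 0) hm hD hreg hnc
      (fun i => hx0 _) (fun i => hμ _) (fun i => by rw [hai i]; exact hxe _)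
      (fun v I' hI' => by
        have h1 := hgpv a ha3 K htrK y hQy hell v (I'.image I0) (fun i hi => by
          obtain ⟨i', hi', rfl⟩ := Finset.mem_image.1 hi
          rw [← hai i']
          exact hI' i' hi')
        rwa [Finset.card_image_of_injective _ hI0] at h1)
      (fun v p₀ γ₀ hp hγ I hI => by
        obtain ⟨hγ0, hγP⟩ := residue_zero hPh (lift2 y D) hV v p₀ γ₀ hp hγ
        exact hΨ a' b hΨab γ₀ hγ0 hγP I hI)
      hwr (spw_hom a' b hG) (fun I => spw_hom a' b (hg I))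
      (fun I J => by
        split_ifs with hI
        · exact hhh I J hI
        · exact isHomogeneous_zero _ _ _)
      (fun I hI => ⟨hew I hI, by
        rw [hid' I hI]
        refine Finset.sum_congr rfl fun J _ => ?_
        rw [if_pos hI]⟩)
      hne1
    have hm1 : ((m : ℤ) - 1) = ((m - 1 : ℕ) : ℤ) := by
      rw [Nat.cast_sub (by omega : 1 ≤ m)]
      simp
    have hnum' : (2 * m * (N + ∑ I, (c I : ℤ)) : ℤ) + 1 ≤ ((m : ℤ) - 1) * q0 * w := by
      rw [hm1]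
      exact_mod_cast hnum
    have h3 : (deg k y : ℤ) ≤ B2 * (canDeg D + S.card) := by
      rw [hB2]
      push_cast
      nlinarith
    have hB2' : (1 : ℤ) ≤ B2 := by
      have : 1 ≤ B2 := by
        rw [hB2]
        exact Nat.mul_pos (by omega) (by omega)
      exact_mod_cast this
    have hχ : 0 ≤ canDeg D + S.card := by
      by_contra hcon
      push Not at hcon
      nlinarith
    push_cast
    have : (0 : ℤ) ≤ B1 * (canDeg D + S.card) := by positivity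
    linarith

end Pool.Agent.H30.AW
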