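import Pool.Agent.H30.AW.Defs

/-!
# MP_70ba79_ag: targets of the board `aw_modules`
-/

set_option autoImplicit false

namespace Pool.Agent.H30.AW

open MvPolynomial SC Pool.Agent.H27.LV Pool.Agent.H30.AV

/-! ### Group A: graded rings -/

/-- NN2: a homogeneous system of parameters which starts with given forms -/
def T_NN2 : Prop := ∀ (L τ : Type) [Field L] [Infinite L] [Fintype τ] (β s : ℕ)
  (P : Ideal (MvPolynomial τ L)) (T : Fin s → MvPolynomial τ L) (hs : s ≤ β + 2), P.IsPrime →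
  IsHom P → (∀ j, (T j).IsHomogeneous 1) →
  (∀ Q : Ideal (MvPolynomial τ L), Q.IsPrime → IsHom Q → P ≤ Q → (∀ j, T j ∈ Q) →
    Algebra.trdeg L (MvPolynomial τ L ⧸ Q) + (s : Cardinal) ≤ (β + 2 : ℕ)) →
  ∃ t : Fin (β + 2) → MvPolynomial τ L, (∀ i, (t i).IsHomogeneous 1) ∧
    (∀ j : Fin s, t (Fin.castLE hs j) = T j) ∧
    ∀ Q : Ideal (MvPolynomial τ L), Q.IsPrime → IsHom Q → P ≤ Q → (∀ i, t i ∈ Q) →
      ∀ x, X x ∈ Q

/-- MUL: zeros along several independent pairs -/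
def T_MUL : Prop := ∀ (L τ : Type) [Field L] [Infinite L] [Fintype τ] (β s : ℕ)
  (P : Ideal (MvPolynomial τ L)) (T T' : Fin s → MvPolynomial τ L), 2 * s ≤ β + 2 → P.IsPrime →
  IsHom P → Algebra.trdeg L (MvPolynomial τ L ⧸ P) = (β + 2 : ℕ) →
  (∀ j, (T j).IsHomogeneous 1) → (∀ j, (T' j).IsHomogeneous 1) →
  (∀ Q : Ideal (MvPolynomial τ L), Q.IsPrime → IsHom Q → P ≤ Q → (∀ j, T j ∈ Q) →
    (∀ j, T' j ∈ Q) →
    Algebra.trdeg L (MvPolynomial τ L ⧸ Q) + ((2 * s : ℕ) : Cardinal) ≤ (β + 2 : ℕ)) →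
  ∃ (c : ℕ) (g : MvPolynomial τ L), g.IsHomogeneous c ∧ g ∉ P ∧
    ∀ (w : ℕ) (G : MvPolynomial τ L), (∀ j, G ∈ (Ideal.span {T j, T' j}) ^ w ⊔ P) →
      g * G ∈ (∏ j, (Ideal.span {T j, T' j}) ^ w) ⊔ P

/-- NU2: the numerical inequality -/
def T_NU2 : Prop := ∀ m r β q c d C₀ : ℕ, 2 ≤ m → 1 ≤ r → β + 2 ≤ 2 * r →
  2 * m ^ 2 * ((2 * r - 1) * (2 * r - 2) + 1) ≤ (m - 1) ^ 2 * q →
  ∃ N w : ℕ, w + d ≤ N ∧ w * r ≤ N ∧ 1 ≤ N ∧
    q * cnt β (N + c) w < Fintype.card (Mon (β + 2) (N - d)) ∧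
    2 * m * (N + C₀) < (m - 1) * q * w

/-- PE2: a form with many zeros of high order -/
def T_PE2 : Prop := ∀ (L τ : Type) [Field L] [Infinite L] [Fintype τ] (m r β q : ℕ)
  (P : Ideal (MvPolynomial τ L)) (T T' : Fin q → MvPolynomial τ L), 2 ≤ m → 1 ≤ r →
  β + 2 ≤ 2 * r → 2 * m ^ 2 * ((2 * r - 1) * (2 * r - 2) + 1) ≤ (m - 1) ^ 2 * q →
  P.IsPrime → IsHom P →
  Algebra.trdeg L (MvPolynomial τ L ⧸ P) = (β + 2 : ℕ) →
  (∀ i, (T i).IsHomogeneous 1) → (∀ i, (T' i).IsHomogeneous 1) →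
  (∀ I : Finset (Fin q), 2 * I.card ≤ β + 2 → ∀ Q : Ideal (MvPolynomial τ L), Q.IsPrime →
    IsHom Q → P ≤ Q → (∀ i ∈ I, T i ∈ Q ∧ T' i ∈ Q) →
    Algebra.trdeg L (MvPolynomial τ L ⧸ Q) + ((2 * I.card : ℕ) : Cardinal) ≤ (β + 2 : ℕ)) →
  ∃ (N w : ℕ) (G : MvPolynomial τ L) (c : Finset (Fin q) → ℕ)
    (g : Finset (Fin q) → MvPolynomial τ L), 1 ≤ N ∧ w * r ≤ N ∧
    2 * m * (N + ∑ I, c I) < (m - 1) * q * w ∧ G.IsHomogeneous N ∧ G ∉ P ∧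
    (∀ I, (g I).IsHomogeneous (c I) ∧ g I ∉ P) ∧
    ∀ I : Finset (Fin q), 2 * I.card ≤ β + 1 →
      g I * G ∈ (∏ i ∈ I, (Ideal.span {T i, T' i}) ^ w) ⊔ P

/-! ### Group B: generic hyperplanes -/

/-- SG2: a zero of `P`, normalised -/
def T_SG2 : Prop := ∀ (k Ω : Type) [Field k] [Field Ω] [Algebra k Ω] (τ : Type) [Finite τ]
  (β : ℕ) (P : Ideal (MvPolynomial τ k)) (ζ : τ → Ω), P.IsPrime → IsHom P →
  Algebra.trdeg k (MvPolynomial τ k ⧸ P) ≤ (β + 2 : ℕ) → (∀ g ∈ P, aeval ζ g = 0) →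
  ∀ x₀, ζ x₀ ≠ 0 →
  Algebra.trdeg k (IntermediateField.adjoin k (Set.range fun x => ζ x / ζ x₀)) ≤ (β + 1 : ℕ)

/-- LRB: two relations in one block -/
def T_LRB : Prop := ∀ (k Ω : Type) [Field k] [Field Ω] [Algebra k Ω] (n : ℕ)
  (F : IntermediateField k Ω) (W : Zw n → Ω) (a b b' : Fin (n + 1) → Ω), (∀ p, W p ∈ F) →
  (∀ i j, W (i, j) = -W (j, i)) → (∀ i, W (i, i) = 0) → W ≠ 0 → bil b W a = 0 →
  bil b' W a = 0 →
  Algebra.trdeg F (IntermediateField.adjoin F (Set.range a ∪ Set.range b ∪ Set.range b')) + 2 ≤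
    (3 * (n + 1) : ℕ)

/-- TR2: the pairs of forms `TT 0 i`, `TT 1 i` are parts of a system of parameters -/
def T_TR2 : Prop := ∀ (k : Type) [Field k] [CharZero k] (n q β : ℕ)
  (P : Ideal (MvPolynomial (Zw n) k)), P.IsPrime → IsHom P → Alt P →
  Algebra.trdeg k (MvPolynomial (Zw n) k ⧸ P) ≤ (β + 2 : ℕ) →
  ∀ (L : Type) [Field L] [Algebra k L] (α : Aw q n → L), AlgebraicIndependent k α →
  (∀ z : L, ∃ f g : MvPolynomial (Aw q n) k, aeval α g ≠ 0 ∧ z * aeval α g = aeval α f) →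
  ∀ (I : Finset (Fin q)), 2 * I.card ≤ β + 2 → ∀ (Q : Ideal (MvPolynomial (Zw n) L)),
  Q.IsPrime → IsHom Q → (∀ g ∈ P, MvPolynomial.map (algebraMap k L) g ∈ Q) →
  (∀ i ∈ I, ∀ c, ev α (TT k n q c i) ∈ Q) →
  Algebra.trdeg L (MvPolynomial (Zw n) L ⧸ Q) + ((2 * I.card : ℕ) : Cardinal) ≤ (β + 2 : ℕ)

/-- PX2: a form `G` on `P` with zeros of high order on generic hyperplanes -/
def T_PX2 : Prop := ∀ (k : Type) [Field k] [CharZero k] (m n r q β : ℕ)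
  (P : Ideal (MvPolynomial (Zw n) k)), 2 ≤ m → 1 ≤ r → β + 2 ≤ 2 * r →
  2 * m ^ 2 * ((2 * r - 1) * (2 * r - 2) + 1) ≤ (m - 1) ^ 2 * q → P.IsPrime → IsHom P → Alt P →
  Algebra.trdeg k (MvPolynomial (Zw n) k ⧸ P) = (β + 2 : ℕ) →
  ∃ (N w : ℕ) (c : Finset (Fin q) → ℕ) (G : MvPolynomial (Aw q n) (MvPolynomial (Zw n) k))
    (g : Finset (Fin q) → MvPolynomial (Aw q n) (MvPolynomial (Zw n) k)), 1 ≤ N ∧ w * r ≤ N ∧
    2 * m * (N + ∑ I, c I) < (m - 1) * q * w ∧ HomC N G ∧ (∀ I, HomC (c I) (g I)) ∧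
    ¬ InC P (G * ∏ I, g I) ∧
    ∀ I : Finset (Fin q), 2 * I.card ≤ β + 1 →
      ∃ (e : ℕ) (h : (Fin q → Fin (w + 1)) → MvPolynomial (Aw q n) (MvPolynomial (Zw n) k)),
        e + w * I.card = N + c I ∧ (∀ J, HomC e (h J)) ∧ InC P (g I * G -
          ∑ J, (∏ i ∈ I, TT k n q 0 i ^ (J i : ℕ) * TT k n q 1 i ^ (w - (J i : ℕ))) * h J)

/-! ### Group C: general hyperplanes -/

/-- GE2: specialisation of the coefficients -/
def T_GE2 : Prop := ∀ (k : Type) [Field k] [Infinite k] (n q q0 m : ℕ)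
  (P : Ideal (MvPolynomial (Zw n) k)) (Θ : MvPolynomial (Aw q0 n) (MvPolynomial (Zw n) k)),
  P.IsPrime → Algebra.trdeg k (MvPolynomial (Zw n) k ⧸ P) ≤ (m : Cardinal) → q0 + m ≤ q →
  ∃ Δ : MvPolynomial (Fin q × Fin (n + 1)) k, Δ ≠ 0 ∧
    ∀ a : Fin q → Fin (n + 1) → k, eval (fun p => a p.1 p.2) Δ ≠ 0 →
    ∀ (K : Type) [Field K] [Algebra k K] (γ : Zw n → K), (∀ g ∈ P, aeval γ g = 0) →
    (∃ μ, aeval γ (coeff μ Θ) ≠ 0) →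
    ∃ (I : Fin q0 → Fin q) (b : Fin q0 → Fin 2 → Fin (n + 1) → k), Function.Injective I ∧
      aeval γ (spw (fun i => a (I i)) b Θ) ≠ 0

/-- GP2: general position -/
def T_GP2 : Prop := ∀ (k : Type) [Field k] [CharZero k] (n q β : ℕ)
  (P : Ideal (MvPolynomial (Zw n) k)), P.IsPrime → IsHom P → Alt P →
  Algebra.trdeg k (MvPolynomial (Zw n) k ⧸ P) ≤ (β + 2 : ℕ) →
  ∃ Ψ : MvPolynomial (Aw q n) k, Ψ ≠ 0 ∧
    ∀ (a : Fin q → Fin (n + 1) → k) (b : Fin q → Fin 2 → Fin (n + 1) → k),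
    eval (avw a b) Ψ ≠ 0 → ∀ γ₀ : Zw n → k, γ₀ ≠ 0 → (∀ g ∈ P, aeval γ₀ g = 0) →
    ∀ I : Finset (Fin q), (∀ i ∈ I, ∀ c, bil (b i c) γ₀ (a i) = 0) → 2 * I.card ≤ β + 1

/-! ### Group D: curves -/

/-- LO2: local estimates -/
def T_LO2 : Prop := ∀ (k K : Type) [Field k] [IsAlgClosed k] [CharZero k] [Field K] [Algebra k K]
  [Algebra.EssFiniteType k K], Algebra.trdeg k K = 1 → ∀ (n m μ : ℕ) (a b : Fin (n + 1) → k)
  (S : Finset (DV k K)) (y : Fin n → K) (x : K) (D : Derivation k K K), D ≠ 0 →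
  (∀ v, v ∉ S → ∀ j, 0 ≤ v.ord (y j)) → x ≠ 0 → 2 ≤ m → m ≤ μ → x ^ μ = ell a (xx y) →
  ∀ v : DV k K, 0 ≤ v.ord (ell a (xx y)) + poleOrder v y ∧ (v ∉ S → poleOrder v y = 0) ∧
  (∀ p, ge v (kap D S y v) (lift2 y D p)) ∧
  (bil (evk K b) (lift2 y D) (evk K a) = 0 ∨
    m * kap D S y v + (m - 1) * (v.ord (ell a (xx y)) + poleOrder v y) ≤
      m * v.ord (bil (evk K b) (lift2 y D) (evk K a)))

/-- CU2: the inequality for one curve -/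
def T_CU2 : Prop := ∀ (k K : Type) [Field k] [IsAlgClosed k] [CharZero k] [Field K] [Algebra k K]
  [Algebra.EssFiniteType k K], Algebra.trdeg k K = 1 → ∀ (m n q r β N w : ℕ)
  (c e : Finset (Fin q) → ℕ) (a : Fin q → Fin (n + 1) → k)
  (b : Fin q → Fin 2 → Fin (n + 1) → k) (μ : Fin q → ℕ) (S : Finset (DV k K))
  (y : Fin n → K) (x : Fin q → K) (D : Derivation k K K) (G : MvPolynomial (Zw n) k)
  (g : Finset (Fin q) → MvPolynomial (Zw n) k)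
  (h : Finset (Fin q) → (Fin q → Fin (w + 1)) → MvPolynomial (Zw n) k), 2 ≤ m → D ≠ 0 →
  (∀ v, v ∉ S → ∀ j, 0 ≤ v.ord (y j)) → (∃ j, y j ∉ Set.range (algebraMap k K)) →
  (∀ i, x i ≠ 0) → (∀ i, m ≤ μ i) → (∀ i, x i ^ μ i = ell (a i) (xx y)) →
  (∀ (v : DV k K) (I : Finset (Fin q)),
    (∀ i ∈ I, 0 < v.ord (ell (a i) (xx y)) + poleOrder v y) → I.card ≤ r) →
  (∀ (v : DV k K) (p₀ : Zw n) (γ₀ : Zw n → k), lift2 y D p₀ ≠ 0 →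
    (∀ p, ge v 1 (lift2 y D p / lift2 y D p₀ - algebraMap k K (γ₀ p))) →
    ∀ I : Finset (Fin q), (∀ i ∈ I, ∀ c, bil (b i c) γ₀ (a i) = 0) → 2 * I.card ≤ β + 1) →
  w * r ≤ N → G.IsHomogeneous N → (∀ I, (g I).IsHomogeneous (c I)) →
  (∀ I J, (h I J).IsHomogeneous (e I)) →
  (∀ I : Finset (Fin q), 2 * I.card ≤ β + 1 → e I + w * I.card = N + c I ∧
    aeval (lift2 y D) (g I * G) = ∑ J : Fin q → Fin (w + 1),
      (∏ i ∈ I, bil (evk K (b i 0)) (lift2 y D) (evk K (a i)) ^ (J i : ℕ) *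
        bil (evk K (b i 1)) (lift2 y D) (evk K (a i)) ^ (w - (J i : ℕ))) *
        aeval (lift2 y D) (h I J)) →
  aeval (lift2 y D) (G * ∏ I, g I) ≠ 0 →
  (((m : ℤ) - 1) * q * w - 2 * m * (N + ∑ I, (c I : ℤ))) * deg k y ≤
    m * (N + ∑ I, (c I : ℤ)) * (canDeg D + S.card)

/-- BZ2: curves with only one tangent line -/
def T_BZ2 : Prop := ∀ (k : Type) [Field k] [IsAlgClosed k] [CharZero k] (m n r q : ℕ)
  (Q : Set (MvPolynomial (Fin n) k)), 2 ≤ m → 1 ≤ r → DimLE Q r → 2 * r * m < (m - 1) * q →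
  ∀ P : Ideal (MvPolynomial (Zw n) k), P.IsPrime → IsHom P →
  Algebra.trdeg k (MvPolynomial (Zw n) k ⧸ P) ≤ (1 : Cardinal) →
  Bd2 k n q m Q fun K _ _ y D => ∀ g ∈ P, aeval (lift2 y D) g = 0

/-! ### Group E: induction -/

/-- TA2: the tangent lines of an irreducible variety, outside a hypersurface -/
def T_TA2 : Prop := ∀ (k : Type) [Field k] [CharZero k] (n r : ℕ)
  (Q : Ideal (MvPolynomial (Fin n) k)), Q.IsPrime →
  Algebra.trdeg k (MvPolynomial (Fin n) k ⧸ Q) ≤ (r : Cardinal) →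
  ∃ (f : MvPolynomial (Fin n) k) (P : Ideal (MvPolynomial (Zw n) k)), f ∉ Q ∧ P.IsPrime ∧
    IsHom P ∧ Alt P ∧ Algebra.trdeg k (MvPolynomial (Zw n) k ⧸ P) ≤ (2 * r : ℕ) ∧
    ∀ (K : Type) [Field K] [Algebra k K] (D : Derivation k K K) (y : Fin n → K),
      (∀ g ∈ Q, aeval y g = 0) → aeval y f ≠ 0 → ∀ g ∈ P, aeval (lift2 y D) g = 0

/-- BO2: union of two conditions -/
def T_BO2 : Prop := ∀ (k : Type) [Field k] (n q m : ℕ) (Q : Set (MvPolynomial (Fin n) k))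
  (V V' V'' : ∀ (K : Type) [Field K] [Algebra k K], (Fin n → K) → Derivation k K K → Prop),
  Bd2 k n q m Q V → Bd2 k n q m Q V' →
  (∀ (K : Type) [Field K] [Algebra k K] (y : Fin n → K) (D : Derivation k K K),
    (∀ g ∈ Q, aeval y g = 0) → V'' K y D → V K y D ∨ V' K y D) → Bd2 k n q m Q V''

/-- PR2: the main step, for a prime ideal -/
def T_PR2 : Prop := ∀ (k : Type) [Field k] [IsAlgClosed k] [CharZero k] (m n r q : ℕ)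
  (Q : Set (MvPolynomial (Fin n) k)), 2 ≤ m → 1 ≤ r → DimLE Q r →
  2 * m ^ 2 * ((2 * r - 1) * (2 * r - 2) + 1) ≤ (m - 1) ^ 2 * (q - 2 * r) →
  ∀ P : Ideal (MvPolynomial (Zw n) k), P.IsPrime → IsHom P → Alt P →
  Algebra.trdeg k (MvPolynomial (Zw n) k ⧸ P) ≤ (2 * r : ℕ) →
  (∀ A : Ideal (MvPolynomial (Zw n) k), P < A → IsHom A →
    Bd2 k n q m Q fun K _ _ y D => ∀ g ∈ A, aeval (lift2 y D) g = 0) →
  Bd2 k n q m Q fun K _ _ y D => ∀ g ∈ P, aeval (lift2 y D) g = 0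

/-- IN2: induction over the homogeneous ideals which contain `P` -/
def T_IN2 : Prop := ∀ (k : Type) [Field k] [IsAlgClosed k] [CharZero k] (m n r q : ℕ)
  (Q : Set (MvPolynomial (Fin n) k)), 2 ≤ m → 1 ≤ r → DimLE Q r →
  2 * m ^ 2 * ((2 * r - 1) * (2 * r - 2) + 1) ≤ (m - 1) ^ 2 * (q - 2 * r) →
  ∀ P : Ideal (MvPolynomial (Zw n) k), P.IsPrime → IsHom P → Alt P →
  Algebra.trdeg k (MvPolynomial (Zw n) k ⧸ P) ≤ (2 * r : ℕ) →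
  Bd2 k n q m Q fun K _ _ y D => ∀ g ∈ P, aeval (lift2 y D) g = 0

/-- IZ2: induction over the closed subsets of the variety -/
def T_IZ2 : Prop := ∀ (k : Type) [Field k] [IsAlgClosed k] [CharZero k] (m n r q : ℕ)
  (Q : Set (MvPolynomial (Fin n) k)), 2 ≤ m → 1 ≤ r → DimLE Q r →
  2 * m ^ 2 * ((2 * r - 1) * (2 * r - 2) + 1) ≤ (m - 1) ^ 2 * (q - 2 * r) →
  Bd2 k n q m Q fun _ _ _ _ _ => True

/-- LN2: the theorem for linear polynomials -/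
def T_LN2 : Prop := ∀ (k : Type) [Field k] [IsAlgClosed k] [CharZero k] (m n r q : ℕ)
  (Q : Set (MvPolynomial (Fin n) k)), 2 ≤ m → 1 ≤ r → DimLE Q r →
  2 * m ^ 2 * ((2 * r - 1) * (2 * r - 2) + 1) ≤ (m - 1) ^ 2 * (q - 2 * r) →
  ∃ (Δ : MvPolynomial (Fin q × Fin (n + 1)) k) (B : ℕ), Δ ≠ 0 ∧
    ∀ a : Fin q → Fin (n + 1) → k, eval (fun p => a p.1 p.2) Δ ≠ 0 →
    ∀ μ : Fin q → ℕ, (∀ i, m ≤ μ i) →
      DegreeBound k (coverEqs Q a μ) (∏ i, X (Sum.inr i)) (fun χ => B * χ)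

/-- VE2: the theorem for polynomials of degree `e` -/
def T_VE2 : Prop := ∀ (k : Type) [Field k] [IsAlgClosed k] [CharZero k] (m n r e q : ℕ)
  (Q : Set (MvPolynomial (Fin n) k)), 2 ≤ m → 1 ≤ r → 1 ≤ e → DimLE Q r →
  2 * m ^ 2 * ((2 * r - 1) * (2 * r - 2) + 1) ≤ (m - 1) ^ 2 * (q - 2 * r) →
  ∃ (Δ : MvPolynomial (Fin q × Pol n e) k) (B : ℕ), Δ ≠ 0 ∧
    ∀ a : Fin q → Pol n e → k, eval (fun p => a p.1 p.2) Δ ≠ 0 →
    ∀ μ : Fin q → ℕ, (∀ i, m ≤ μ i) →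
      DegreeBound k (polyEqs Q a μ) (∏ i, X (Sum.inr i)) (fun χ => B * χ)

end Pool.Agent.H30.AW
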