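import Pool.Agent.H30.AV.Targets3

/-!
# MP_70ba79_ag: covers of affine varieties of dimension `r`, quadratically many sections

Common definitions of the modules of the board `aw_modules`. It continues `avr_modules`. The curves
are lifted to the tangent lines: the antisymmetric matrix `W_ij = z_i D z_j - z_j D z_i`,
`z = (1, y)`. A hyperplane `a` contains the tangent line if and only if `W a = 0`; for two general
vectors `b`, `b'` the linear forms `b W a`, `b' W a` define a subset of codimension two.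
-/

set_option autoImplicit false

namespace Pool.Agent.H30.AW

open MvPolynomial SC Pool.Agent.H27.LV Pool.Agent.H30.AV

/-- the variables `Z_ij`, `i, j = 0, …, n` -/
abbrev Zw (n : ℕ) : Type := Fin (n + 1) × Fin (n + 1)

/-- the variables `a_(i, s)` (coefficients of `q` linear forms) and `b_(i, c, s)`, `c = 0, 1` -/
abbrev Aw (q n : ℕ) : Type := (Fin q × Fin (n + 1)) ⊕ (Fin q × Fin 2 × Fin (n + 1))

/-- antisymmetric matrix of rank two -/
def wed {F : Type} [Field F] {n : ℕ} (z z' : Fin (n + 1) → F) : Zw n → F :=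
  fun ij => z ij.1 * z' ij.2 - z ij.2 * z' ij.1

/-- the matrix `z_i D z_j - z_j D z_i`, `z = (1, y)` -/
def lift2 {k K : Type} [Field k] [Field K] [Algebra k K] {n : ℕ} (y : Fin n → K)
    (D : Derivation k K K) : Zw n → K := wed (xx y) fun j => D (xx y j)

/-- the bilinear form `b W a` -/
def bil {F : Type} [Field F] {n : ℕ} (b : Fin (n + 1) → F) (W : Zw n → F)
    (a : Fin (n + 1) → F) : F := ∑ s, ∑ t, b s * W (s, t) * a t

/-- the ideal contains the equations of the antisymmetric matrices -/
def Alt {k : Type} [Field k] {n : ℕ} (P : Ideal (MvPolynomial (Zw n) k)) : Prop :=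
  ∀ i j : Fin (n + 1), X (i, j) + X (j, i) ∈ P

section TwoRings

variable {k : Type} [Field k] {n q : ℕ} {A τ : Type}

/-- all coefficients of `G` are forms of degree `N` -/
def HomC (N : ℕ) (G : MvPolynomial A (MvPolynomial τ k)) : Prop :=
  ∀ m, (coeff m G).IsHomogeneous N

/-- all coefficients of `G` are in `P` -/
def InC (P : Ideal (MvPolynomial τ k)) (G : MvPolynomial A (MvPolynomial τ k)) : Prop :=
  ∀ m, coeff m G ∈ P

/-- `∑ b_(i, c, s) Z_st a_(i, t)` -/
noncomputable def TT (k : Type) [Field k] (n q : ℕ) (c : Fin 2) (i : Fin q) :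
    MvPolynomial (Aw q n) (MvPolynomial (Zw n) k) :=
  ∑ s : Fin (n + 1), ∑ t : Fin (n + 1),
    X (Sum.inr (i, c, s)) * C (X (s, t)) * X (Sum.inl (i, t))

/-- values of the variables -/
def avw (a : Fin q → Fin (n + 1) → k) (b : Fin q → Fin 2 → Fin (n + 1) → k) : Aw q n → k :=
  Sum.elim (fun p => a p.1 p.2) fun p => b p.1 p.2.1 p.2.2

/-- substitute constants for the variables `a`, `b` -/
noncomputable def spw (a : Fin q → Fin (n + 1) → k) (b : Fin q → Fin 2 → Fin (n + 1) → k)
    (G : MvPolynomial (Aw q n) (MvPolynomial (Zw n) k)) : MvPolynomial (Zw n) k :=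
  eval (fun v => C (avw a b v)) G

end TwoRings

/-- For general `a` (in the complement of a hypersurface `Δ = 0`) the degree of the curves of the
cover with the equations `x_i ^ μ_i = a_i (y)`, `μ_i ≥ m`, of the variety with equations `Q`, which
have the property `V`, is bounded linearly. -/
def Bd2 (k : Type) [Field k] (n q m : ℕ) (Q : Set (MvPolynomial (Fin n) k))
    (V : ∀ (K : Type) [Field K] [Algebra k K], (Fin n → K) → Derivation k K K → Prop) : Prop :=
  ∃ (Δ : MvPolynomial (Fin q × Fin (n + 1)) k) (B : ℕ), Δ ≠ 0 ∧ 1 ≤ B ∧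
    ∀ a : Fin q → Fin (n + 1) → k, eval (fun p => a p.1 p.2) Δ ≠ 0 →
    ∀ μ : Fin q → ℕ, (∀ i, m ≤ μ i) →
    ∀ (K : Type) [Field K] [Algebra k K] [Algebra.EssFiniteType k K], Algebra.trdeg k K = 1 →
    ∀ (S : Finset (DV k K)) (y : Fin n → K) (x : Fin q → K) (D : Derivation k K K), D ≠ 0 →
    (∀ g ∈ Q, aeval y g = 0) → (∀ v, v ∉ S → ∀ j, 0 ≤ v.ord (y j)) →
    (∃ j, y j ∉ Set.range (algebraMap k K)) → (∀ i, x i ≠ 0) →
    (∀ i, x i ^ μ i = ell (a i) (xx y)) → V K y D →
    (deg k y : ℤ) ≤ B * (canDeg D + S.card)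

end Pool.Agent.H30.AW
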