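import Pool.Agent.H30.AW.Targets
import Pool.Agent.H30.AV.Hom
import Pool.Agent.H64.AV.GPV

/-!
# Forms with coefficients in a ring of forms (second version), residues of lifts
-/

set_option autoImplicit false

namespace Pool.Agent.H30.AW

open MvPolynomial SC Pool.Agent.H27.LV Pool.Agent.H30.AV

section HomC

variable {k A τ : Type} [Field k] {n q : ℕ}

lemma HomC.mul {M N : ℕ} {G H : MvPolynomial A (MvPolynomial τ k)} (hG : HomC M G)
    (hH : HomC N H) : HomC (M + N) (G * H) := by
  classical
  intro m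
  rw [coeff_mul]
  exact IsHomogeneous.sum _ _ _ fun p _ => (hG _).mul (hH _)

lemma HomC.one : HomC 0 (1 : MvPolynomial A (MvPolynomial τ k)) := by
  classical
  intro m
  rw [coeff_one]
  split_ifs
  · exact isHomogeneous_one _ _
  · exact isHomogeneous_zero _ _ _

lemma HomC.prod {ι : Type} (s : Finset ι) (c : ι → ℕ) (g : ι → MvPolynomial A (MvPolynomial τ k))
    (hg : ∀ i, HomC (c i) (g i)) : HomC (∑ i ∈ s, c i) (∏ i ∈ s, g i) := by
  classical
  induction s using Finset.induction_on with
  | empty =>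
    rw [Finset.prod_empty, Finset.sum_empty]
    exact HomC.one
  | insert a s ha ih =>
    rw [Finset.prod_insert ha, Finset.sum_insert ha]
    exact (hg a).mul ih

/-- polynomials with constant coefficients -/
lemma HomC.map_C (Ψ : MvPolynomial A k) :
    HomC 0 (MvPolynomial.map (C : k →+* MvPolynomial τ k) Ψ) := by
  intro m
  rw [coeff_map]
  exact isHomogeneous_C _ _

/-- coefficients in `P`: the kernel of a homomorphism -/
lemma inC_iff (P : Ideal (MvPolynomial τ k)) (G : MvPolynomial A (MvPolynomial τ k)) :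
    InC P G ↔ MvPolynomial.map (Ideal.Quotient.mk P) G = 0 := by
  constructor
  · intro h
    ext m
    rw [coeff_map, coeff_zero]
    exact Ideal.Quotient.eq_zero_iff_mem.2 (h m)
  · intro h m
    have h1 := congrArg (coeff m) h
    rw [coeff_map, coeff_zero] at h1
    exact Ideal.Quotient.eq_zero_iff_mem.1 h1

lemma not_inC_mul {P : Ideal (MvPolynomial τ k)} (hP : P.IsPrime)
    {G H : MvPolynomial A (MvPolynomial τ k)} (hG : ¬ InC P G) (hH : ¬ InC P H) :
    ¬ InC P (G * H) := by
  rw [inC_iff] at *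
  rw [map_mul]
  exact mul_ne_zero hG hH

lemma not_inC_map_C {P : Ideal (MvPolynomial τ k)} (hP : P.IsPrime) {Ψ : MvPolynomial A k}
    (hΨ : Ψ ≠ 0) : ¬ InC P (MvPolynomial.map (C : k →+* MvPolynomial τ k) Ψ) := by
  intro h
  apply hΨ
  ext m
  rw [coeff_zero]
  by_contra hne
  have h1 := h m
  rw [coeff_map] at h1
  exact hP.ne_top (Ideal.eq_top_of_isUnit_mem _ h1 ((isUnit_iff_ne_zero.2 hne).map C))

/-- `spw` as a ring homomorphism -/
noncomputable def spwH (a : Fin q → Fin (n + 1) → k) (b : Fin q → Fin 2 → Fin (n + 1) → k) :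
    MvPolynomial (Aw q n) (MvPolynomial (Zw n) k) →+* MvPolynomial (Zw n) k :=
  eval fun v => C (avw a b v)

variable (a : Fin q → Fin (n + 1) → k) (b : Fin q → Fin 2 → Fin (n + 1) → k)

lemma spwH_apply (G : MvPolynomial (Aw q n) (MvPolynomial (Zw n) k)) :
    spwH a b G = spw a b G := rfl

lemma spw_eq (G : MvPolynomial (Aw q n) (MvPolynomial (Zw n) k)) :
    spw a b G = ∑ m ∈ G.support, coeff m G * C (∏ v ∈ m.support, avw a b v ^ m v) := by
  unfold spw
  rw [eval_eq]
  refine Finset.sum_congr rfl fun m _ => ?_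
  rw [map_prod]
  simp only [map_pow]

lemma spw_hom {N : ℕ} {G : MvPolynomial (Aw q n) (MvPolynomial (Zw n) k)} (hG : HomC N G) :
    (spw a b G).IsHomogeneous N := by
  rw [spw_eq]
  refine IsHomogeneous.sum _ _ _ fun m _ => ?_
  have := (hG m).mul (isHomogeneous_C (Zw n) (∏ v ∈ m.support, avw a b v ^ m v))
  simpa using this

lemma spw_mem {P : Ideal (MvPolynomial (Zw n) k)}
    {G : MvPolynomial (Aw q n) (MvPolynomial (Zw n) k)} (hG : InC P G) : spw a b G ∈ P := by
  rw [spw_eq]
  exact P.sum_mem fun m _ => P.mul_mem_right _ (hG m)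

lemma spw_map_C (Ψ : MvPolynomial (Aw q n) k) :
    spw a b (MvPolynomial.map (C : k →+* MvPolynomial (Zw n) k) Ψ) = C (eval (avw a b) Ψ) := by
  unfold spw
  rw [eval_map]
  induction Ψ using MvPolynomial.induction_on with
  | C c => rw [eval₂_C, eval_C]
  | add f g hf hg => rw [eval₂_add, hf, hg, map_add, map_add]
  | mul_X f i hf => rw [eval₂_mul, hf, eval₂_X, map_mul, eval_X, map_mul]

variable {K : Type} [Field K] [Algebra k K]

lemma spw_TT (c : Fin 2) (i : Fin q) (W : Zw n → K) :
    aeval W (spw a b (TT k n q c i)) = bil (evk K (b i c)) W (evk K (a i)) := by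
  have h1 : spw a b (TT k n q c i) =
      ∑ s : Fin (n + 1), ∑ t : Fin (n + 1), C (b i c s) * X (s, t) * C (a i t) := by
    unfold spw TT
    rw [map_sum]
    refine Finset.sum_congr rfl fun s _ => ?_
    rw [map_sum]
    refine Finset.sum_congr rfl fun t _ => ?_
    rw [map_mul, map_mul, eval_X, eval_X, eval_C]
    rfl
  rw [h1, map_sum]
  unfold bil
  refine Finset.sum_congr rfl fun s _ => ?_
  rw [map_sum]
  refine Finset.sum_congr rfl fun t _ => ?_
  rw [map_mul, map_mul, aeval_X, aeval_C, aeval_C]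
  rfl

end HomC

section Residue

variable {k K : Type} [Field k] [Field K] [Algebra k K] {n : ℕ}

/-- the residue of the normalised lift is a zero of `P` -/
lemma residue_zero {P : Ideal (MvPolynomial (Zw n) k)} (hPh : IsHom P) (W : Zw n → K)
    (hW : ∀ g ∈ P, aeval W g = 0) (v : DV k K) (p₀ : Zw n) (γ₀ : Zw n → k) (hp : W p₀ ≠ 0)
    (h : ∀ p, ge v 1 (W p / W p₀ - algebraMap k K (γ₀ p))) :
    γ₀ ≠ 0 ∧ ∀ g ∈ P, aeval γ₀ g = 0 := by
  constructor
  · intro h0
    have h1 := h p₀
    rw [h0, div_self hp, Pi.zero_apply, map_zero, sub_zero] at h1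
    have h2 : ge v 1 (algebraMap k K 1) := by rw [map_one]; exact h1
    exact one_ne_zero (const_eq_zero v one_pos h2)
  · intro g hg
    have key : ∀ d, aeval γ₀ (homogeneousComponent d g) = 0 := by
      intro d
      have h1 := H64.AV.red_form v (fun p => W p / W p₀) γ₀ (fun p => by
        have h2 := ((h p).mono (by norm_num : (0 : ℤ) ≤ 1)).add (ge_const v (γ₀ p))
        rwa [sub_add_cancel] at h2) h (homogeneousComponent d g)
      have h3 : aeval (fun p => W p / W p₀) (homogeneousComponent d g) = 0 := by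
        have h4 := H64.AV.aeval_hom (k := k) W (W p₀)⁻¹ (homogeneousComponent d g)
          (homogeneousComponent_isHomogeneous d g)
        rw [hW _ (hPh g hg d), mul_zero] at h4
        rw [← h4]
        congr 2
        funext p
        rw [div_eq_mul_inv, mul_comm]
      rw [h3, zero_sub] at h1
      have h5 := h1.neg
      rw [neg_neg] at h5
      have h6 := const_eq_zero v one_pos h5
      rw [← h6]
      rfl
    conv_lhs => rw [← sum_homogeneousComponent g]
    rw [map_sum]
    exact Finset.sum_eq_zero fun d _ => key d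

end Residue

end Pool.Agent.H30.AW
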